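import Pool.Agent.H46.VT.Tools
import Pool.Agent.H46.VT.Red

/-! Module IQ: the constructed set has the infinitary property. -/

namespace Pool.Agent.H85.VT.IQ

open _root_.VT Pool.Agent.H46.VT
open Nat.Partrec (Code)
open Nat.Partrec.Code Encodable Denumerable

/-- the general pair property -/
lemma pairQ (hGL : TARGET_GL) (hWL : TARGET_WL) (hCS : TARGET_CS) {ph : ℕ → ℕ → ℕ × ℕ} (hc : Computable₂ ph)
    (hr : Run ph) (l : ℕ) (Vs : Set (Set ℕ))
    (hV : ∀ n, ∃ V ∈ Vs, ∀ x ∈ V, l = 0 → n < mX x) :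
    PairQ (UU ph l) (AA ph l) Vs := by
  obtain ⟨h1, h2, h3, h4, h5, h6, h7⟩ := hCS ph hc hr
  refine ⟨CC ph l, h2 l, h5 l, h6 l, hWL ph hc hr l, ?_⟩
  intro B hB hBC
  obtain ⟨b, rfl⟩ := ce_iff_code.1 hB
  refine ⟨DD ph l b, h4 l b, h7 l b, ?_⟩
  intro S S' hS hS' hU hI hBD
  obtain ⟨n, T, hT, hUT, hx⟩ := hGL ph hc hr l b S S' hS hS' hU hI hBD
  obtain ⟨V, hVV, hVn⟩ := hV n
  refine ⟨V, hVV, T, hT, hUT, ?_⟩
  ext x
  constructor
  · rintro ⟨⟨⟨hA, hxS⟩, hxT⟩, hxV⟩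
    exact ⟨⟨⟨(hx x hxS hxT (hVn x hxV)).1 hA, hxS⟩, hxT⟩, hxV⟩
  · rintro ⟨⟨⟨hA, hxS⟩, hxT⟩, hxV⟩
    exact ⟨⟨⟨(hx x hxS hxT (hVn x hxV)).2 hA, hxS⟩, hxT⟩, hxV⟩

/-- IQ: the constructed set has the infinitary property. -/
theorem pf_IQ (hGL : TARGET_GL) (hWL : TARGET_WL) (hCS : TARGET_CS) (hLB : TARGET_LB) (_hRA : TARGET_RA) :
    TARGET_IQ := by
  intro ph hc hr
  obtain ⟨h1, h2, h3, h4, h5, h6, h7⟩ := hCS ph hc hr
  have hcomp : ∀ m : ℕ, ComputablePred (fun x => mX x = m) := fun m =>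
    cp_eq (co_unpair1 Computable.id) (Computable.const m)
  refine ⟨fun m => {x | mX x = m}, ?_, ?_, ?_, ?_⟩
  · intro m
    refine ⟨ce_of_computable (hcomp m), ?_⟩
    have := ce_of_computable (cp_not (hcomp m))
    exact this
  · intro x
    exact ⟨mX x, rfl, fun y hy => (Eq.symm hy)⟩
  · have hU : UU ph 0 = Set.univ := by
      ext x
      simp only [Set.mem_univ, iff_true]
      exact ⟨0, Or.inl rfl⟩
    have := pairQ hGL hWL hCS hc hr 0
      {V | ∃ n, V = {x | ∀ m ≤ n, x ∉ (fun m => {x | mX x = m} : ℕ → Set ℕ) m}} (by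
        intro n
        refine ⟨_, ⟨n, rfl⟩, fun x hx _ => ?_⟩
        by_contra hcon
        exact hx (mX x) (by omega) rfl)
    rw [hU] at this
    exact this
  · intro m
    have hl : ∀ i, lm (Nat.pair m i + 1) = m ∧ li (Nat.pair m i + 1) = i := by
      intro i
      simp [lm, li, Nat.unpair_pair]
    have hUin : ∀ i s x, Uin ph (Nat.pair m i + 1) s x ↔ mX x = m ∧ (i ≤ (ph s x).1 ∨ (ph s x).2 = 0) := by
      intro i s x
      unfold Uin
      rw [(hl i).1, (hl i).2]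
      constructor
      · rintro (h | ⟨_, h⟩)
        · omega
        · exact h
      · intro h
        exact Or.inr ⟨by omega, h⟩
    have hAin : ∀ i s x, Ain ph (Nat.pair m i + 1) s x ↔ mX x = m ∧ (i < (ph s x).1 ∨ (ph s x).2 = 0) := by
      intro i s x
      unfold Ain
      rw [(hl i).1, (hl i).2]
      constructor
      · rintro (h | ⟨_, h⟩)
        · omega
        · exact h
      · intro h
        exact Or.inr ⟨by omega, h⟩
    have hAU : ∀ i, AA ph (Nat.pair m i + 1) = UU ph (Nat.pair m (i + 1) + 1) := by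
      intro i
      ext x
      constructor
      · rintro ⟨s, hs⟩
        exact ⟨s, (hUin _ _ _).2 ((hAin _ _ _).1 hs)⟩
      · rintro ⟨s, hs⟩
        exact ⟨s, (hAin _ _ _).2 ((hUin _ _ _).1 hs)⟩
    refine ⟨m + 1, fun i => UU ph (Nat.pair m i + 1), ?_, ?_, ?_, ?_⟩
    · ext x
      constructor
      · rintro ⟨s, hs⟩
        exact ((hUin _ _ _).1 hs).1
      · intro hx
        exact ⟨0, (hUin _ _ _).2 ⟨hx, Or.inl (Nat.zero_le _)⟩⟩
    · ext x
      constructor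
      · rintro ⟨s, hs⟩
        obtain ⟨hm, hs'⟩ := (hUin _ _ _).1 hs
        have hlb := hLB ph hr s x
        rcases hs' with h | h
        · omega
        · exact ⟨⟨s, Or.inl ⟨rfl, h⟩⟩, hm⟩
      · rintro ⟨⟨s, hs⟩, hm⟩
        refine ⟨s, (hUin _ _ _).2 ⟨hm, Or.inr ?_⟩⟩
        rcases hs with h | h
        · exact h.2
        · exact absurd rfl h.1
    · intro i _
      exact h1 _
    · intro i _
      show PairQ (UU ph (Nat.pair m i + 1)) (UU ph (Nat.pair m (i + 1) + 1)) {Set.univ}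
      rw [← hAU i]
      refine pairQ hGL hWL hCS hc hr _ _ fun n => ⟨Set.univ, rfl, fun x _ h => ?_⟩
      omega

end Pool.Agent.H85.VT.IQ
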